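import Pool.Agent.H35.DW.UQb

/-!
# Board wey_modules, module UQ: dual unfolding
-/

set_option autoImplicit false

open NumberField NumberField.InfinitePlace NumberField.Units
  NumberField.Units.dirichletUnitTheorem MeasureTheory Set Filter Complex
open scoped nonZeroDivisors ENNReal

namespace Pool.Agent.H35.DW

open Pool.Agent.H25.HK Pool.Agent.H23.LB Pool.Agent.H23.LC
open Pool.Agent.H28.RC (Rep ft idl)
open Pool.Agent.H35.GLB
open Pool.Agent.H29.DW

section
open scoped Classical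

variable {K : Type} [Field K] [NumberField K] {f : Ideal (𝓞 K)}

/-- the terms -/
noncomputable def Fq (D : Sys K f) (χ : HG K f) (cp : InfinitePlace K → ℂ)
    (H : InfinitePlace K → ℝ) (c : D.ι) (t : ℝ) (v : ℝ → ℂ)
    (x : K) (p : logSpace K × ℝ × (InfinitePlace K → ℝ)) : ℂ :=
  ec K χ.ν p.1 * cexp (t * p.2.1 * I) * (ek χ.k p.2.2 * (ch D χ c x *
    v (Ideal.absNorm (idl K (du K ((f : FI K) * D.M c)) x)) *
      Wg cp H pb x (yM K (du K ((f : FI K) * D.M c)) p.2.1 (zs false p.1)) (om false p.2.2)))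

theorem Fq_meas (hPU : T_PU) (D : Sys K f) (χ : HG K f) (cp : InfinitePlace K → ℂ)
    (H : InfinitePlace K → ℝ) (c : D.ι) (t : ℝ) (v : ℝ → ℂ) (x : K) :
    Measurable (Fq D χ cp H c t v x) := by
  have h1 : Continuous (fun p : logSpace K × ℝ × (InfinitePlace K → ℝ) => ec K χ.ν p.1) :=
    ((hPU K).2.2.2.2.1 χ.ν).1.comp continuous_fst
  have h2 : Continuous (fun p : logSpace K × ℝ × (InfinitePlace K → ℝ) =>
    cexp (t * p.2.1 * I)) := by fun_prop
  have h3 : Measurable (fun p : logSpace K × ℝ × (InfinitePlace K → ℝ) => ek χ.k p.2.2) :=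
    (ek_meas K χ.k).comp (measurable_snd.comp measurable_snd)
  have h4 : Measurable (fun p : logSpace K × ℝ × (InfinitePlace K → ℝ) =>
      (yM K (du K ((f : FI K) * D.M c)) p.2.1 (-p.1), p.2.2)) :=
    (yM_meas _).prodMk (measurable_snd.comp measurable_snd)
  have h5 : Measurable (fun p : logSpace K × ℝ × (InfinitePlace K → ℝ) =>
      Wg cp H pb x (yM K (du K ((f : FI K) * D.M c)) p.2.1 (-p.1)) (om false p.2.2)) := by
    have h7 := (Wg_meas K cp H x false).comp h4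
    simp only [Function.comp_def] at h7
    exact h7
  have h6 : Fq D χ cp H c t v x = fun p : logSpace K × ℝ × (InfinitePlace K → ℝ) =>
      ec K χ.ν p.1 * cexp (t * p.2.1 * I) * (ek χ.k p.2.2 * (ch D χ c x *
    v (Ideal.absNorm (idl K (du K ((f : FI K) * D.M c)) x)) *
      Wg cp H pb x (yM K (du K ((f : FI K) * D.M c)) p.2.1 (-p.1)) (om false p.2.2))) := by
    funext p
    unfold Fq
    simp only [zs, Bool.false_eq_true, if_false]
  rw [h6]
  exact (h1.measurable.mul h2.measurable).mul (h3.mul (measurable_const.mul h5))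

/-- (UQ) dual unfolding. -/
theorem pf_UQ (hDC : U_DC) (hAG : U_AG) (hPU : T_PU) : V_UQ := by
  intro K _ _ f hf D χ cp H t v hH hv
  have hfM : ∀ c, (f : FI K) * D.M c ≠ 0 := fun c => by
    refine mul_ne_zero ?_ (D.reps.1 c)
    rwa [Ne, FractionalIdeal.coeIdeal_eq_zero]
  have hL : ∀ c, du K ((f : FI K) * D.M c) ≠ 0 := fun c =>
    (Pool.Agent.H20.HKI.b_DU K _ (hfM c)).1
  have hreps : Reps K (fun c => du K ((f : FI K) * D.M c)) :=
    (Pool.Agent.H65.GLA.pf_RR K D.ι _ ((Pool.Agent.H65.GLA.pf_RR K D.ι _ D.reps).1 f hf)).2.1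
  obtain ⟨C, hC, hCv⟩ := v_bound (K := K) v hv
  have hcd := (hDC K f hf D χ).1
  set S : ℝ := Real.sqrt (Nf K f) with hS
  have hS0 : 0 ≤ S := Real.sqrt_nonneg _
  set β : Ideal (𝓞 K) → ℂ := fun J => v (Ideal.absNorm J) * ((S : ℂ) * cd D χ J) *
    (Ideal.absNorm J : ℂ) ^ (-(t * I : ℂ)) with hβ
  set γ : Ideal (𝓞 K) → ℝ≥0∞ := fun J =>
    ‖v (Ideal.absNorm J) * ((S : ℂ) * cd D χ J)‖ₑ * volume (An K) with hγ
  have hb : ∀ J : NZI K, ‖v (Ideal.absNorm J.1) * ((S : ℂ) * cd D χ J.1)‖ ≤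
      (C * (S * S)) * (Ideal.absNorm J.1 : ℝ) ^ (-(3 / 2) : ℝ) := by
    intro J
    rw [norm_mul, norm_mul, Complex.norm_real, Real.norm_of_nonneg hS0]
    have h1 := hCv J
    have h2 := hcd J.1
    have h3 : S * ‖cd D χ J.1‖ ≤ S * S := mul_le_mul_of_nonneg_left h2 hS0
    calc ‖v (Ideal.absNorm J.1)‖ * (S * ‖cd D χ J.1‖) ≤
        (C * (Ideal.absNorm J.1 : ℝ) ^ (-(3 / 2) : ℝ)) * (S * S) :=
          mul_le_mul h1 h3 (by positivity) (by positivity)
      _ = _ := by ring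
  have hsum : Summable (fun J : NZI K => ‖v (Ideal.absNorm J.1) * ((S : ℂ) * cd D χ J.1)‖) :=
    Summable.of_nonneg_of_le (fun _ => norm_nonneg _) hb ((sum_norm (K := K)).mul_left _)
  have hβn : ∀ J : NZI K, ‖β J.1‖ = ‖v (Ideal.absNorm J.1) * ((S : ℂ) * cd D χ J.1)‖ := by
    intro J
    simp only [hβ]
    have h2 : Ideal.absNorm J.1 ≠ 0 := by
      rw [Ne, Ideal.absNorm_eq_zero_iff]
      exact J.2
    rw [norm_mul _ ((Ideal.absNorm J.1 : ℂ) ^ (-(t * I : ℂ))),
      Complex.norm_natCast_cpow_of_pos (Nat.pos_of_ne_zero h2)]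
    simp
  have hβs : Summable (fun J : NZI K => β J.1) := by
    refine Summable.of_norm ?_
    simp only [hβn]
    exact hsum
  have hγs : ∀ L : FI K, ∑' J : {J : Ideal (𝓞 K) // Pri K L J}, γ J.1 ≠ ∞ := by
    intro L
    have h1 : ∑' J : NZI K, γ J.1 ≠ ∞ := by
      simp only [hγ]
      rw [ENNReal.tsum_mul_right]
      refine ENNReal.mul_ne_top ?_ (An_fin K).ne
      have h2 : ∀ J : NZI K, ‖v (Ideal.absNorm J.1) * ((S : ℂ) * cd D χ J.1)‖ₑ =
          ENNReal.ofReal ‖v (Ideal.absNorm J.1) * ((S : ℂ) * cd D χ J.1)‖ := fun J =>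
        (ofReal_norm _).symm
      simp only [h2]
      exact hsum.tsum_ofReal_ne_top
    refine ne_top_of_le_ne_top h1 ?_
    exact ENNReal.tsum_comp_le_tsum_of_injective
      (f := fun J : {J : Ideal (𝓞 K) // Pri K L J} => (⟨J.1, J.2.1⟩ : NZI K))
      (fun J J' h => Subtype.ext (by simpa using h)) (fun J : NZI K => γ J.1)
  have hc : ∀ c : D.ι, ∫ p in Fd K ×ˢ (univ : Set ℝ) ×ˢ An K, ec K χ.ν p.1 *
      cexp (t * p.2.1 * I) *
      (ek χ.k p.2.2 * ∑' x : {x : K // x ∈ du K ((f : FI K) * D.M c) ∧ x ≠ 0}, ch D χ c x *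
        v (Ideal.absNorm (idl K (du K ((f : FI K) * D.M c)) x)) *
          Wg cp H pb x (yM K (du K ((f : FI K) * D.M c)) p.2.1 (zs false p.1))
            (om false p.2.2)) =
      (torsionOrder K : ℂ) * (∑' J : {J : Ideal (𝓞 K) // Pri K (du K ((f : FI K) * D.M c)) J},
        β J.1) * WH K cp H (-χ.k) (-χ.ν) t := by
    intro c
    set L := du K ((f : FI K) * D.M c) with hLd
    have h2 : ∫ p in Fd K ×ˢ (univ : Set ℝ) ×ˢ An K, ec K χ.ν p.1 *
        cexp (t * p.2.1 * I) *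
        (ek χ.k p.2.2 * ∑' x : {x : K // x ∈ L ∧ x ≠ 0}, ch D χ c x *
          v (Ideal.absNorm (idl K L x)) *
            Wg cp H pb x (yM K L p.2.1 (zs false p.1)) (om false p.2.2)) =
        ∫ p in Fd K ×ˢ (univ : Set ℝ) ×ˢ An K, ∑' x : {x : K // x ∈ L ∧ x ≠ 0},
          Fq D χ cp H c t v x p := by
      refine integral_congr_ae (ae_of_all _ fun p => ?_)
      simp only
      rw [← tsum_mul_left, ← tsum_mul_left]
      rfl
    rw [h2, WH_eq]
    refine class_unf2 (-1) (Or.inr rfl) L (hL c) (Pw K cp H (-χ.k) (-χ.ν) t)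
      (Pw_meas K hPU _ _ _ _ _) (Pw_int K hPU cp H hH _ _ _) (Rk K (1 / 16)) (Rk_meas K _)
      (Rk_fin K (1 / 16) (by norm_num)) (Fq D χ cp H c t v) (Fq_meas hPU D χ cp H c t v) β γ
      (hγs L) ?_ ?_
    · intro x hx hx0 z τ
      have h3 := (ch_ag hAG hDC hPU hf D χ c x hx hx0).1
      have h4 := norm_idl K L (hL c) x hx hx0
      have h5 := yM_zl K L (hL c) x hx hx0 τ (-z)
      have h6 := cpow_norm K (idl K L x) h4.1 t τ
      have h7 := ec_zl_neg K hPU χ.ν χ.norm_zero x hx0 z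
      have h8 : ∀ θ : InfinitePlace K → ℝ, Fq D χ cp H c t v x (z, τ, θ) =
          (ec K χ.ν z * cexp (t * τ * I) * (ch D χ c x * v (Ideal.absNorm (idl K L x)))) *
          (ek χ.k θ * Wg cp H pb x (yM K L τ (-z)) (om false θ)) := by
        intro θ
        unfold Fq
        simp only [zs, Bool.false_eq_true, if_false]
        ring
      simp only [h8]
      rw [integral_const_mul, ang_c K cp H χ.k _ x hx0, h5]
      unfold Pw
      rw [h7, neg_one_smul]
      simp only [hβ]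
      have h9 : v (Ideal.absNorm (idl K L x)) * ((S : ℂ) * cd D χ (idl K L x)) *
          (Ideal.absNorm (idl K L x) : ℂ) ^ (-(t * I : ℂ)) * (ec K χ.ν z * ph χ.ν x *
          cexp (t * ((τ + Real.log (Ideal.absNorm (idl K L x)) : ℝ) : ℂ) * I) *
          Gk K cp H (-χ.k) (yc K (τ + Real.log (Ideal.absNorm (idl K L x))) (-z + zl K x))) =
          ((Ideal.absNorm (idl K L x) : ℂ) ^ (-(t * I : ℂ)) *
          cexp (t * ((τ + Real.log (Ideal.absNorm (idl K L x)) : ℝ) : ℂ) * I)) *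
          (v (Ideal.absNorm (idl K L x)) * ((S : ℂ) * cd D χ (idl K L x) * ph χ.ν x) *
          (ec K χ.ν z * Gk K cp H (-χ.k)
            (yc K (τ + Real.log (Ideal.absNorm (idl K L x))) (-z + zl K x)))) := by ring
      rw [h9, h6, ← h3]
      ring
    · intro x hx hx0 z τ
      have h3 := (ch_ag hAG hDC hPU hf D χ c x hx hx0).2
      have h5 := yM_zl K L (hL c) x hx hx0 τ (-z)
      have h6 : ∀ θ : InfinitePlace K → ℝ, ‖Fq D χ cp H c t v x (z, τ, θ)‖ₑ ≤
          ‖v (Ideal.absNorm (idl K L x)) * ((S : ℂ) * cd D χ (idl K L x))‖ₑ *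
          Rk K (1 / 16) ((-1 : ℝ) • z + zl K x, τ + Real.log (Ideal.absNorm (idl K L x))) := by
        intro θ
        unfold Fq
        simp only [zs, Bool.false_eq_true, if_false]
        rw [enorm_mul, enorm_mul, enorm_mul, ec_enorm hPU, exp_enorm, ek_enorm, one_mul, one_mul,
          one_mul, enorm_mul, enorm_mul, h3, enorm_mul (v _), mul_comm ‖_ * _‖ₑ ‖v _‖ₑ]
        refine mul_le_mul_right ?_ _
        have h7 := Wg_enorm K cp H hH x hx0 (yM K L τ (-z)) (Pos_om false θ)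
        rw [h5] at h7
        unfold Rk
        rw [neg_one_smul]
        exact h7
      refine (lintegral_mono h6).trans (le_of_eq ?_)
      rw [lintegral_const, Measure.restrict_apply_univ]
      simp only [hγ]
      ring
  rw [Finset.sum_congr rfl fun c _ => hc c]
  have h10 := sum_classes2 (fun c => du K ((f : FI K) * D.M c)) hreps β hβs
  have h11 : ∑ c, (torsionOrder K : ℂ) *
      (∑' J : {J : Ideal (𝓞 K) // Pri K (du K ((f : FI K) * D.M c)) J}, β J.1) *
        WH K cp H (-χ.k) (-χ.ν) t =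
      (torsionOrder K : ℂ) * (∑ c,
      (∑' J : {J : Ideal (𝓞 K) // Pri K (du K ((f : FI K) * D.M c)) J}, β J.1)) *
        WH K cp H (-χ.k) (-χ.ν) t := by
    rw [Finset.mul_sum, Finset.sum_mul]
  rw [h11, h10]
  have h12 : ∑' J : NZI K, β J.1 = (S : ℂ) * ∑' J : NZI K, cd D χ J.1 *
      v (Ideal.absNorm J.1) * (Ideal.absNorm J.1 : ℂ) ^ (-(t * I : ℂ)) := by
    rw [← tsum_mul_left]
    refine tsum_congr fun J => ?_
    simp only [hβ]
    ring
  rw [h12]
  ring

end

end Pool.Agent.H35.DW
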